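import Pool.Agent.Helper249.Ogp
import Pool.Agent.Helper292.ForceCH

/-!
MP_82c070: S_1(Ω,Ω) versus S_1(Ω,O^{ω-gp}). Some notion of forcing forces CH; CH gives a set of
reals with the second property and without the first; the Borel conjecture makes the two
properties equivalent.
-/

namespace Pool.Agent.Results.MP_82c070_gt.ConsistentlyInequivalent

open Pool.Agent.Helper249.Ogp

theorem result :
    (∃ (P : Type) (_ : Preorder P), Nonempty P ∧ ∀ p : P,
      p ∈ Pool.Agent.Helper292.ForceCH.OmegaOnePreserved P ∧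
      p ∈ Pool.Agent.Helper292.ForceCH.CHHolds P) ∧
    (Cardinal.aleph 1 = Cardinal.continuum.{0} →
      ∃ X : Set ℝ, S1 (Omega X) (OmegaGp X) ∧ ¬ S1 (Omega X) (Omega X)) ∧
    ((∀ Y : Set ℝ, StrongMeasureZero Y → Y.Countable) →
      ∀ X : Set ℝ, S1 (Omega X) (OmegaGp X) ↔ S1 (Omega X) (Omega X)) := by
  refine ⟨?_, main1, main1_BC⟩
  obtain ⟨P, i, h1, h2⟩ := Pool.Agent.Helper292.ForceCH.exists_forcing
  exact ⟨P, i, h1, fun p => ⟨(h2 p).1, (h2 p).2.2⟩⟩

end Pool.Agent.Results.MP_82c070_gt.ConsistentlyInequivalent
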