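import Pool.Agent.Helper249.Ogp

/-!
MP_82c070: S_1(Ω,Ω) versus S_1(Ω,O^{ω-gp}). CH gives a set of reals with the second property and
without the first; the Borel conjecture makes the two properties equivalent.
-/

namespace Pool.Agent.Results.MP_82c070_gt.Independent

open Pool.Agent.Helper249.Ogp

theorem result :
    (Cardinal.aleph 1 = Cardinal.continuum.{0} →
      ∃ X : Set ℝ, S1 (Omega X) (OmegaGp X) ∧ ¬ S1 (Omega X) (Omega X)) ∧
    ((∀ Y : Set ℝ, StrongMeasureZero Y → Y.Countable) →
      ∀ X : Set ℝ, S1 (Omega X) (OmegaGp X) ↔ S1 (Omega X) (Omega X)) :=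
  ⟨main1, main1_BC⟩

end Pool.Agent.Results.MP_82c070_gt.Independent
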