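import Pool.Agent.Helper249.Ogp

/-!
MP_82c070: if S_1(Ω,O^{ω-gp}) implied S_1(Ω,Ω) for all sets of reals, then the continuum hypothesis
would fail. No hypothesis is assumed.
-/

namespace Pool.Agent.Results.MP_82c070_gt.RefutesCH

open Pool.Agent.Helper249.Ogp

theorem result :
    (∀ X : Set ℝ, S1 (Omega X) (OmegaGp X) → S1 (Omega X) (Omega X)) →
      Cardinal.aleph 1 ≠ Cardinal.continuum.{0} := by
  intro h hCH
  obtain ⟨X, h1, h2⟩ := main1 hCH
  exact h2 (h X h1)

end Pool.Agent.Results.MP_82c070_gt.RefutesCH
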